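import Pool.Agent.Lib.helper5.ValInv

namespace Pool.Agent.Results.MP_42f98c_gt.NoInv

/-- `A` is a Sigma-subset of `K` -/
def SigmaSubset {K : Type} [TopologicalSpace K] (A : Set K) : Prop :=
  ∃ (Γ : Type) (φ : K → Γ → ℝ), Topology.IsEmbedding φ ∧
    A = φ ⁻¹' {x | {γ | x γ ≠ 0}.Countable}

theorem result : ∃ (K : Type) (_ : TopologicalSpace K), CompactSpace K ∧ T2Space K ∧
    (∃ A : Set K, Dense A ∧ SigmaSubset A) ∧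
    ∃ G : Subgroup (K ≃ₜ K), Finite G ∧ (∀ g ∈ G, ∀ g' ∈ G, g * g' = g' * g) ∧
      ¬ ∃ A : Set K, Dense A ∧ SigmaSubset A ∧ ∀ g ∈ G, g '' A ⊆ A := by
  obtain ⟨φ, h1, h2⟩ := H5VI.vald
  let h : H5VI.K ≃ₜ H5VI.K :=
    ⟨⟨H5VI.h, H5VI.h, H5VI.h_inv, H5VI.h_inv⟩, H5VI.h_cont, H5VI.h_cont⟩
  have h0 : h ^ 2 = 1 := Homeomorph.ext H5VI.h_inv
  refine ⟨H5VI.K, inferInstance, inferInstance, inferInstance, ⟨_, h2, _, φ, h1, rfl⟩,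
    Subgroup.zpowers h, (isOfFinOrder_iff_pow_eq_one.2 ⟨2, two_pos, h0⟩).finite_zpowers, ?_, ?_⟩
  · rintro _ ⟨m, rfl⟩ _ ⟨n, rfl⟩
    exact (Commute.zpow_zpow_self h m n).eq
  · rintro ⟨A, a1, ⟨Γ, ψ, a3, rfl⟩, a2⟩
    exact H5VI.main a3 a1 fun x hx => a2 h (Subgroup.mem_zpowers h) ⟨x, hx, rfl⟩

end Pool.Agent.Results.MP_42f98c_gt.NoInv
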